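import Pool.Agent.H93.SC.Defs

/-!
Basic lemmas on discrete valuations, reductions, minimal orders and systems (MP_f2954d_ag).
-/

namespace SC

namespace DV

section Basic

variable {k K : Type} [Field k] [Field K] [Algebra k K] (v : DV k K)

lemma ord_mul' {x y : K} (hx : x ≠ 0) (hy : y ≠ 0) : v.ord (x * y) = v.ord x + v.ord y :=
  v.ord_mul x y hx hy

lemma ord_pow (x : K) (n : ℕ) : v.ord (x ^ n) = n * v.ord x := by
  by_cases hx : x = 0
  · subst hx
    rcases Nat.eq_zero_or_pos n with h | h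
    · subst h; simp [v.ord_one]
    · rw [zero_pow h.ne', v.ord_zero]; simp
  induction n with
  | zero => simp [v.ord_one]
  | succ n ih =>
    rw [pow_succ, v.ord_mul _ _ (pow_ne_zero _ hx) hx, ih]
    push_cast; ring

lemma ord_zpow (x : K) (n : ℤ) : v.ord (x ^ n) = n * v.ord x := by
  rcases n with n | n
  · simpa using v.ord_pow x n
  · rw [zpow_negSucc, v.ord_inv, v.ord_pow]
    push_cast [Int.negSucc_eq]; ring

lemma ord_div {x y : K} (hx : x ≠ 0) (hy : y ≠ 0) : v.ord (x / y) = v.ord x - v.ord y := by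
  rw [div_eq_mul_inv, v.ord_mul _ _ hx (inv_ne_zero hy), v.ord_inv]; ring

lemma ord_prod {ι : Type*} (s : Finset ι) (f : ι → K) (h : ∀ i ∈ s, f i ≠ 0) :
    v.ord (∏ i ∈ s, f i) = ∑ i ∈ s, v.ord (f i) := by
  classical
  induction s using Finset.induction_on with
  | empty => simp [v.ord_one]
  | insert a s ha ih =>
    rw [Finset.prod_insert ha, Finset.sum_insert ha, v.ord_mul, ih]
    · intro i hi; exact h i (Finset.mem_insert_of_mem hi)
    · exact h a (Finset.mem_insert_self _ _)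
    · exact Finset.prod_ne_zero_iff.mpr fun i hi => h i (Finset.mem_insert_of_mem hi)

lemma unif_ne_zero : v.unif ≠ 0 := v.ord_surj.choose_spec.1

lemma ord_unif : v.ord v.unif = 1 := v.ord_surj.choose_spec.2

lemma ord_unif_zpow (n : ℤ) : v.ord (v.unif ^ n) = n := by
  rw [v.ord_zpow, v.ord_unif, mul_one]

lemma ord_unif_pow (n : ℕ) : v.ord (v.unif ^ n) = n := by
  rw [v.ord_pow, v.ord_unif, mul_one]

lemma unif_zpow_ne_zero (n : ℤ) : v.unif ^ n ≠ 0 := zpow_ne_zero _ v.unif_ne_zero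

/-- every integer is an order -/
lemma exists_ord (n : ℤ) : ∃ x, x ≠ 0 ∧ v.ord x = n :=
  ⟨v.unif ^ n, v.unif_zpow_ne_zero n, v.ord_unif_zpow n⟩

lemma ord_sub_comm (x y : K) : v.ord (x - y) = v.ord (y - x) := by
  rw [← v.ord_neg (x - y), neg_sub]

lemma ord_algebraMap (c : k) : v.ord (algebraMap k K c) = 0 := v.ord_base c

lemma ord_natCast_le (n : ℕ) : 0 ≤ v.ord (n : K) := by
  have := v.ord_base (n : k)
  rw [map_natCast] at this; omega

lemma ord_add_ge {x y : K} {n : ℤ} (hx : x ≠ 0 → n ≤ v.ord x) (hy : y ≠ 0 → n ≤ v.ord y)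
    (h : x + y ≠ 0) : n ≤ v.ord (x + y) := by
  by_cases h1 : x = 0
  · subst h1; rw [zero_add] at h ⊢; exact hy h
  by_cases h2 : y = 0
  · subst h2; rw [add_zero] at h ⊢; exact hx h
  exact le_trans (le_min (hx h1) (hy h2)) (v.ord_add x y h1 h2 h)

lemma ord_sum_ge {ι : Type*} (s : Finset ι) (f : ι → K) {n : ℤ}
    (hf : ∀ i ∈ s, f i ≠ 0 → n ≤ v.ord (f i)) (h : ∑ i ∈ s, f i ≠ 0) :
    n ≤ v.ord (∑ i ∈ s, f i) := by
  classical
  induction s using Finset.induction_on with
  | empty => simp at h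
  | insert a s ha ih =>
    rw [Finset.sum_insert ha] at h ⊢
    refine v.ord_add_ge (hf a (Finset.mem_insert_self _ _)) (fun h' => ih ?_ h') h
    intro i hi; exact hf i (Finset.mem_insert_of_mem hi)

/-- the order of a sum of elements of the valuation ring (also if the sum is zero) -/
lemma ord_sum_nonneg {ι : Type*} (s : Finset ι) (f : ι → K)
    (hf : ∀ i ∈ s, 0 ≤ v.ord (f i)) : 0 ≤ v.ord (∑ i ∈ s, f i) := by
  by_cases h : ∑ i ∈ s, f i = 0
  · rw [h, v.ord_zero]
  · exact v.ord_sum_ge s f (fun i hi _ => hf i hi) h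

lemma ord_add_nonneg {x y : K} (hx : 0 ≤ v.ord x) (hy : 0 ≤ v.ord y) : 0 ≤ v.ord (x + y) :=
  v.vs.add_mem x y hx hy

lemma ord_sub_nonneg {x y : K} (hx : 0 ≤ v.ord x) (hy : 0 ≤ v.ord y) : 0 ≤ v.ord (x - y) := by
  rw [sub_eq_add_neg]; exact v.ord_add_nonneg hx (by rwa [v.ord_neg])

lemma ord_mul_nonneg {x y : K} (hx : 0 ≤ v.ord x) (hy : 0 ≤ v.ord y) : 0 ≤ v.ord (x * y) :=
  v.vs.mul_mem x y hx hy

lemma ord_pow_nonneg {x : K} (hx : 0 ≤ v.ord x) (n : ℕ) : 0 ≤ v.ord (x ^ n) := by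
  rw [v.ord_pow]; positivity

lemma ord_prod_nonneg {ι : Type*} (s : Finset ι) (f : ι → K) (h : ∀ i ∈ s, 0 ≤ v.ord (f i)) :
    0 ≤ v.ord (∏ i ∈ s, f i) := prod_mem (S := v.vs) (fun i hi => h i hi)

/-- strict triangle inequality: different orders -/
lemma ord_add_eq_min {x y : K} (hx : x ≠ 0) (hy : y ≠ 0) (h : v.ord x ≠ v.ord y) :
    x + y ≠ 0 ∧ v.ord (x + y) = min (v.ord x) (v.ord y) := by
  have hne : x + y ≠ 0 := by
    intro h0
    have : y = -x := by linear_combination h0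
    rw [this, v.ord_neg] at h
    exact h rfl
  refine ⟨hne, le_antisymm ?_ (v.ord_add x y hx hy hne)⟩
  rcases lt_or_gt_of_ne h with h1 | h1
  · rw [min_eq_left h1.le]
    by_contra hc
    push Not at hc
    have h2 : v.ord x < v.ord ((x + y) + -y) := by
      have h3 : (x + y) + -y ≠ 0 := by simpa using hx
      have := v.ord_add (x + y) (-y) hne (neg_ne_zero.mpr hy) h3
      rw [v.ord_neg] at this
      exact lt_of_lt_of_le (lt_min hc h1) this
    simp at h2
  · rw [min_eq_right h1.le]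
    by_contra hc
    push Not at hc
    have h2 : v.ord y < v.ord ((x + y) + -x) := by
      have h3 : (x + y) + -x ≠ 0 := by simpa using hy
      have := v.ord_add (x + y) (-x) hne (neg_ne_zero.mpr hx) h3
      rw [v.ord_neg] at this
      exact lt_of_lt_of_le (lt_min hc h1) this
    simp at h2

lemma ord_add_eq_left {x y : K} (hx : x ≠ 0) (h : y ≠ 0 → v.ord x < v.ord y) :
    x + y ≠ 0 ∧ v.ord (x + y) = v.ord x := by
  by_cases hy : y = 0
  · subst hy; simpa using hx
  · have h1 := h hy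
    obtain ⟨h2, h3⟩ := v.ord_add_eq_min hx hy h1.ne
    exact ⟨h2, by rw [h3, min_eq_left h1.le]⟩

/-! ### the reduction map -/

lemma red_of_nonneg {x : K} (h : 0 ≤ v.ord x) : v.red x = IsLocalRing.residue v.vs ⟨x, h⟩ := by
  rw [red, dif_pos h]

lemma red_of_neg {x : K} (h : v.ord x < 0) : v.red x = 0 := by
  rw [red, dif_neg (not_le.mpr h)]

lemma red_coe (x : v.vs) : v.red (x : K) = IsLocalRing.residue v.vs x := v.red_of_nonneg x.2

@[simp] lemma red_zero : v.red 0 = 0 := by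
  have := v.red_coe 0
  simpa using this

@[simp] lemma red_one : v.red 1 = 1 := by
  have := v.red_coe 1
  simpa using this

lemma red_add {x y : K} (hx : 0 ≤ v.ord x) (hy : 0 ≤ v.ord y) :
    v.red (x + y) = v.red x + v.red y := by
  have := v.red_coe (⟨x, hx⟩ + ⟨y, hy⟩)
  rw [map_add, ← v.red_of_nonneg, ← v.red_of_nonneg] at this
  exact this

lemma red_mul {x y : K} (hx : 0 ≤ v.ord x) (hy : 0 ≤ v.ord y) :
    v.red (x * y) = v.red x * v.red y := by
  have := v.red_coe (⟨x, hx⟩ * ⟨y, hy⟩)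
  rw [map_mul, ← v.red_of_nonneg, ← v.red_of_nonneg] at this
  exact this

lemma red_neg (x : K) : v.red (-x) = - v.red x := by
  by_cases hx : 0 ≤ v.ord x
  · have := v.red_coe (-⟨x, hx⟩)
    rw [map_neg, ← v.red_of_nonneg] at this
    exact this
  · rw [v.red_of_neg (by rw [v.ord_neg]; omega), v.red_of_neg (by omega), neg_zero]

lemma red_sub {x y : K} (hx : 0 ≤ v.ord x) (hy : 0 ≤ v.ord y) :
    v.red (x - y) = v.red x - v.red y := by
  rw [sub_eq_add_neg, v.red_add hx (by rwa [v.ord_neg]), v.red_neg, sub_eq_add_neg]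

lemma red_pow {x : K} (hx : 0 ≤ v.ord x) (n : ℕ) : v.red (x ^ n) = v.red x ^ n := by
  induction n with
  | zero => simp
  | succ n ih => rw [pow_succ, pow_succ, v.red_mul (v.ord_pow_nonneg hx n) hx, ih]

lemma red_sum {ι : Type*} (s : Finset ι) (f : ι → K) (h : ∀ i ∈ s, 0 ≤ v.ord (f i)) :
    v.red (∑ i ∈ s, f i) = ∑ i ∈ s, v.red (f i) := by
  classical
  induction s using Finset.induction_on with
  | empty => simp
  | insert a s ha ih =>
    rw [Finset.sum_insert ha, Finset.sum_insert ha, v.red_add (h a (Finset.mem_insert_self _ _))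
      (v.ord_sum_nonneg s f fun i hi => h i (Finset.mem_insert_of_mem hi)),
      ih fun i hi => h i (Finset.mem_insert_of_mem hi)]

lemma red_prod {ι : Type*} (s : Finset ι) (f : ι → K) (h : ∀ i ∈ s, 0 ≤ v.ord (f i)) :
    v.red (∏ i ∈ s, f i) = ∏ i ∈ s, v.red (f i) := by
  classical
  induction s using Finset.induction_on with
  | empty => simp
  | insert a s ha ih =>
    rw [Finset.prod_insert ha, Finset.prod_insert ha, v.red_mul (h a (Finset.mem_insert_self _ _))
      (v.ord_prod_nonneg s f fun i hi => h i (Finset.mem_insert_of_mem hi)),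
      ih fun i hi => h i (Finset.mem_insert_of_mem hi)]

lemma isUnit_vs_iff {x : v.vs} : IsUnit x ↔ (x : K) ≠ 0 ∧ v.ord (x : K) = 0 := by
  constructor
  · rintro ⟨u, rfl⟩
    have h1 : ((u : v.vs) : K) * ((u⁻¹ : v.vsˣ) : v.vs) = 1 := by
      have := u.mul_inv
      exact_mod_cast congrArg (Subtype.val) this
    have h2 : ((u : v.vs) : K) ≠ 0 := left_ne_zero_of_mul_eq_one h1
    have h3 : (((u⁻¹ : v.vsˣ) : v.vs) : K) ≠ 0 := right_ne_zero_of_mul_eq_one h1
    have h4 := v.ord_mul _ _ h2 h3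
    rw [h1, v.ord_one] at h4
    have h5 : 0 ≤ v.ord ((u : v.vs) : K) := (u : v.vs).2
    have h6 : 0 ≤ v.ord (((u⁻¹ : v.vsˣ) : v.vs) : K) := ((u⁻¹ : v.vsˣ) : v.vs).2
    exact ⟨h2, by omega⟩
  · rintro ⟨h1, h2⟩
    have h3 : (x : K)⁻¹ ∈ v.vs := by rw [mem_vs, v.ord_inv]; omega
    exact IsUnit.of_mul_eq_one ⟨(x : K)⁻¹, h3⟩ (by ext; simp [h1])

lemma red_eq_zero_iff {x : K} (hx : 0 ≤ v.ord x) : v.red x = 0 ↔ x = 0 ∨ 0 < v.ord x := by
  rw [v.red_of_nonneg hx, IsLocalRing.residue_eq_zero_iff, IsLocalRing.mem_maximalIdeal,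
    mem_nonunits_iff, v.isUnit_vs_iff]
  simp only [ne_eq, not_and_or, not_not]
  constructor
  · rintro (h | h)
    · exact Or.inl h
    · exact Or.inr (lt_of_le_of_ne hx (Ne.symm h))
  · rintro (h | h)
    · exact Or.inl h
    · exact Or.inr h.ne'

lemma red_ne_zero {x : K} (hx : x ≠ 0) (h : v.ord x = 0) : v.red x ≠ 0 := by
  rw [ne_eq, v.red_eq_zero_iff h.ge]
  push Not
  exact ⟨hx, h.le⟩

lemma red_ne_zero_iff {x : K} : v.red x ≠ 0 ↔ x ≠ 0 ∧ v.ord x = 0 := by
  constructor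
  · intro h
    by_cases hx : 0 ≤ v.ord x
    · rw [ne_eq, v.red_eq_zero_iff hx] at h
      push Not at h
      exact ⟨h.1, le_antisymm h.2 hx⟩
    · exact absurd (v.red_of_neg (not_le.mp hx)) h
  · rintro ⟨h1, h2⟩
    exact v.red_ne_zero h1 h2

lemma red_eq_zero_of_pos {x : K} (h : 0 < v.ord x) : v.red x = 0 :=
  (v.red_eq_zero_iff h.le).mpr (Or.inr h)

lemma red_inv {x : K} (h : v.ord x = 0) : v.red x⁻¹ = (v.red x)⁻¹ := by
  by_cases hx : x = 0
  · simp [hx]
  have h1 : v.red (x * x⁻¹) = v.red x * v.red x⁻¹ :=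
    v.red_mul h.ge (by rw [v.ord_inv]; omega)
  rw [mul_inv_cancel₀ hx, v.red_one] at h1
  exact eq_inv_of_mul_eq_one_right h1.symm

lemma red_div {x y : K} (hx : 0 ≤ v.ord x) (hy : v.ord y = 0) :
    v.red (x / y) = v.red x / v.red y := by
  rw [div_eq_mul_inv, v.red_mul hx (by rw [v.ord_inv]; omega), v.red_inv hy, div_eq_mul_inv]

lemma red_zpow {x : K} (h : v.ord x = 0) (n : ℤ) : v.red (x ^ n) = v.red x ^ n := by
  rcases n with n | n
  · simpa using v.red_pow h.ge n
  · rw [zpow_negSucc, zpow_negSucc, v.red_inv (by rw [v.ord_pow, h]; simp), v.red_pow h.ge]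

lemma algebraMap_vs_coe (c : k) : ((algebraMap k v.vs c : v.vs) : K) = algebraMap k K c := rfl

instance : IsScalarTower k v.vs K :=
  IsScalarTower.of_algebraMap_eq fun _ => rfl

lemma algebraMap_res (c : k) :
    algebraMap k v.Res c = IsLocalRing.residue v.vs (algebraMap k v.vs c) := rfl

lemma red_algebraMap (c : k) : v.red (algebraMap k K c) = algebraMap k v.Res c := by
  rw [algebraMap_res, ← v.algebraMap_vs_coe, v.red_coe]

lemma red_smul (c : k) {x : K} (hx : 0 ≤ v.ord x) : v.red (c • x) = c • v.red x := by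
  rw [Algebra.smul_def, v.red_mul (by rw [v.ord_base]) hx, v.red_algebraMap, Algebra.smul_def]

/-- every residue class has a representative of order zero (or zero) -/
lemma exists_red (y : v.Res) : ∃ x : K, v.red x = y ∧ 0 ≤ v.ord x ∧ (x = 0 ∨ v.ord x = 0) := by
  obtain ⟨x, hx⟩ := IsLocalRing.residue_surjective y
  by_cases h : y = 0
  · exact ⟨0, by rw [v.red_zero, h], by rw [v.ord_zero], Or.inl rfl⟩
  · refine ⟨x, by rw [v.red_coe, hx], x.2, Or.inr ?_⟩
    have : v.red (x : K) ≠ 0 := by rw [v.red_coe, hx]; exact h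
    exact (v.red_ne_zero_iff.mp this).2

lemma exists_red_ne {y : v.Res} (hy : y ≠ 0) : ∃ x : K, v.red x = y ∧ x ≠ 0 ∧ v.ord x = 0 := by
  obtain ⟨x, h1, -, -⟩ := v.exists_red y
  have h2 : v.red x ≠ 0 := by rw [h1]; exact hy
  exact ⟨x, h1, v.red_ne_zero_iff.mp h2⟩

lemma red_sub_eq_zero_iff {x y : K} (hx : 0 ≤ v.ord x) (hy : 0 ≤ v.ord y) :
    v.red x = v.red y ↔ x = y ∨ 0 < v.ord (x - y) := by
  rw [← sub_eq_zero, ← v.red_sub hx hy, v.red_eq_zero_iff (v.ord_sub_nonneg hx hy), sub_eq_zero]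

end Basic

/-! ### minimal orders -/

section Mo

variable {k K : Type} [Field k] [Field K] [Algebra k K] (v : DV k K)

lemma mo_set_finite (S : Sys K) : {z : ℤ | ∃ i, S.s i ≠ 0 ∧ v.ord (S.s i) = z}.Finite := by
  refine (Set.finite_range fun i => v.ord (S.s i)).subset ?_
  rintro z ⟨i, -, rfl⟩
  exact ⟨i, rfl⟩

lemma mo_le (S : Sys K) (i : Fin S.r) (h : S.s i ≠ 0) : v.mo S ≤ v.ord (S.s i) :=
  csInf_le (v.mo_set_finite S).bddBelow ⟨i, h, rfl⟩

lemma mo_exists (S : Sys K) (h : S.Nz) : ∃ i, S.s i ≠ 0 ∧ v.ord (S.s i) = v.mo S := by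
  obtain ⟨i, hi⟩ := h
  exact Int.csInf_mem (s := {z : ℤ | ∃ i, S.s i ≠ 0 ∧ v.ord (S.s i) = z})
    ⟨_, i, hi, rfl⟩ (v.mo_set_finite S).bddBelow

lemma mo_eq_of {S : Sys K} {n : ℤ} (h1 : ∀ i, S.s i ≠ 0 → n ≤ v.ord (S.s i))
    (h2 : ∃ i, S.s i ≠ 0 ∧ v.ord (S.s i) = n) : v.mo S = n := by
  obtain ⟨i, hi, hn⟩ := h2
  apply le_antisymm
  · rw [← hn]; exact v.mo_le S i hi
  · obtain ⟨j, hj, hm⟩ := v.mo_exists S ⟨i, hi⟩
    rw [← hm]; exact h1 j hj

lemma le_mo {S : Sys K} (hS : S.Nz) {n : ℤ} (h1 : ∀ i, S.s i ≠ 0 → n ≤ v.ord (S.s i)) :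
    n ≤ v.mo S := by
  obtain ⟨j, hj, hm⟩ := v.mo_exists S hS
  rw [← hm]; exact h1 j hj

lemma mo_of_not_nz {S : Sys K} (h : ¬ S.Nz) : v.mo S = 0 := by
  have : {z : ℤ | ∃ i, S.s i ≠ 0 ∧ v.ord (S.s i) = z} = ∅ := by
    ext z
    simp only [Set.mem_ofPred_eq, Set.mem_empty_iff_false, iff_false]
    rintro ⟨i, hi, -⟩
    exact h ⟨i, hi⟩
  rw [mo, this]
  simp

lemma mo_one : v.mo (Sys.one K) = 0 :=
  v.mo_eq_of (fun i _ => by simp [v.ord_one]) ⟨0, by simp, by simp [v.ord_one]⟩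

lemma mo_mul {S T : Sys K} (hS : S.Nz) (hT : T.Nz) : v.mo (S.mul T) = v.mo S + v.mo T := by
  apply v.mo_eq_of
  · intro i hi
    have h1 : S.s (finProdFinEquiv.symm i).1 ≠ 0 := left_ne_zero_of_mul hi
    have h2 : T.s (finProdFinEquiv.symm i).2 ≠ 0 := right_ne_zero_of_mul hi
    show _ ≤ v.ord (S.s (finProdFinEquiv.symm i).1 * T.s (finProdFinEquiv.symm i).2)
    rw [v.ord_mul _ _ h1 h2]
    exact add_le_add (v.mo_le S _ h1) (v.mo_le T _ h2)
  · obtain ⟨i, hi, hi'⟩ := v.mo_exists S hS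
    obtain ⟨j, hj, hj'⟩ := v.mo_exists T hT
    refine ⟨finProdFinEquiv (i, j), ?_, ?_⟩
    · simp only [Equiv.symm_apply_apply]
      exact mul_ne_zero hi hj
    · simp only [Equiv.symm_apply_apply]
      rw [v.ord_mul _ _ hi hj, hi', hj']

lemma mo_map_mul {S : Sys K} (hS : S.Nz) {c : K} (hc : c ≠ 0) :
    v.mo (S.map fun x => c * x) = v.ord c + v.mo S := by
  apply v.mo_eq_of
  · intro i hi
    have h1 : S.s i ≠ 0 := right_ne_zero_of_mul hi
    show _ ≤ v.ord (c * S.s i)
    rw [v.ord_mul _ _ hc h1]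
    exact add_le_add le_rfl (v.mo_le S _ h1)
  · obtain ⟨i, hi, hi'⟩ := v.mo_exists S hS
    refine ⟨i, mul_ne_zero hc hi, ?_⟩
    show v.ord (c * S.s i) = _
    rw [v.ord_mul _ _ hc hi, hi']

end Mo

end DV

/-! ### systems -/

section SysLemmas

variable {K : Type} [Field K]

lemma Sys.one_nz : (Sys.one K).Nz := ⟨0, by simp⟩

lemma Sys.mul_nz {S T : Sys K} (hS : S.Nz) (hT : T.Nz) : (S.mul T).Nz := by
  obtain ⟨i, hi⟩ := hS
  obtain ⟨j, hj⟩ := hT
  refine ⟨finProdFinEquiv (i, j), ?_⟩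
  simp only [Equiv.symm_apply_apply]
  exact mul_ne_zero hi hj

lemma Sys.map_nz {L : Type} [Field L] (f : K → L) (hf : ∀ x, x ≠ 0 → f x ≠ 0) {S : Sys K}
    (hS : S.Nz) : (S.map f).Nz := by
  obtain ⟨i, hi⟩ := hS
  exact ⟨i, hf _ hi⟩

lemma Sys.up_nz (L : Type) [Field L] [Algebra K L] {S : Sys K} (hS : S.Nz) : (S.up L).Nz :=
  Sys.map_nz _ (fun x hx => by simpa using hx) hS

lemma Sys.up_nz_iff (L : Type) [Field L] [Algebra K L] {S : Sys K} : (S.up L).Nz ↔ S.Nz := by
  refine ⟨?_, Sys.up_nz L⟩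
  rintro ⟨i, hi⟩
  exact ⟨i, fun h => hi (by simp [h])⟩

lemma Sys.scale_nz {S : Sys K} (hS : S.Nz) {c : K} (hc : c ≠ 0) : (S.map fun x => c * x).Nz :=
  Sys.map_nz _ (fun _ hx => mul_ne_zero hc hx) hS

lemma Sys.up_mul (L : Type) [Field L] [Algebra K L] (S T : Sys K) :
    (S.mul T).up L = (S.up L).mul (T.up L) := by
  simp [Sys.mul]

end SysLemmas

namespace DV

section Res

variable {k K : Type} [Field k] [Field K] [Algebra k K] (v : DV k K)

lemma res_ord_nonneg (S : Sys K) (i : Fin S.r) : 0 ≤ v.ord (S.s i * v.unif ^ (- v.mo S)) := by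
  by_cases h : S.s i = 0
  · rw [h, zero_mul, v.ord_zero]
  · rw [v.ord_mul _ _ h (v.unif_zpow_ne_zero _), v.ord_unif_zpow]
    have := v.mo_le S i h
    omega

lemma res_s (S : Sys K) (i : Fin S.r) :
    (v.res S).s i = v.red (S.s i * v.unif ^ (- v.mo S)) := rfl

lemma res_s_ne_zero_iff (S : Sys K) (i : Fin S.r) :
    (v.res S).s i ≠ 0 ↔ S.s i ≠ 0 ∧ v.ord (S.s i) = v.mo S := by
  rw [v.res_s, v.red_ne_zero_iff]
  constructor
  · rintro ⟨h1, h2⟩
    have h3 : S.s i ≠ 0 := left_ne_zero_of_mul h1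
    rw [v.ord_mul _ _ h3 (v.unif_zpow_ne_zero _), v.ord_unif_zpow] at h2
    exact ⟨h3, by omega⟩
  · rintro ⟨h1, h2⟩
    refine ⟨mul_ne_zero h1 (v.unif_zpow_ne_zero _), ?_⟩
    rw [v.ord_mul _ _ h1 (v.unif_zpow_ne_zero _), v.ord_unif_zpow]
    omega

lemma res_nz {S : Sys K} (hS : S.Nz) : (v.res S).Nz := by
  obtain ⟨i, h1, h2⟩ := v.mo_exists S hS
  exact ⟨i, (v.res_s_ne_zero_iff S i).mpr ⟨h1, h2⟩⟩

/-- the restriction computed with any element `g` of order `mo S` instead of the power of the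
uniformizer -/
lemma res_eq_scale (S : Sys K) {g : K} (hg : g ≠ 0) (h : v.ord g = v.mo S) :
    ∃ u : v.Res, u ≠ 0 ∧ v.res S = (S.map fun x => v.red (x / g)).map fun y => u * y := by
  refine ⟨v.red (g * v.unif ^ (- v.mo S)), ?_, ?_⟩
  · apply v.red_ne_zero (mul_ne_zero hg (v.unif_zpow_ne_zero _))
    rw [v.ord_mul _ _ hg (v.unif_zpow_ne_zero _), v.ord_unif_zpow]
    omega
  · simp only [res, Sys.map]
    congr 1
    funext i
    rw [← v.red_mul]
    · congr 1
      field_simp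
    · rw [v.ord_mul _ _ hg (v.unif_zpow_ne_zero _), v.ord_unif_zpow]
      omega
    · by_cases hi : S.s i = 0
      · rw [hi, zero_div, v.ord_zero]
      · rw [v.ord_div hi hg]
        have := v.mo_le S i hi
        omega

/-- the restriction of a scaled system -/
lemma res_scale {S : Sys K} (hS : S.Nz) {c : K} (hc : c ≠ 0) :
    ∃ u : v.Res, u ≠ 0 ∧ v.res (S.map fun x => c * x) = (v.res S).map fun y => u * y := by
  have hm := v.mo_map_mul hS hc
  refine ⟨v.red (c * v.unif ^ (- v.ord c)), ?_, ?_⟩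
  · apply v.red_ne_zero (mul_ne_zero hc (v.unif_zpow_ne_zero _))
    rw [v.ord_mul _ _ hc (v.unif_zpow_ne_zero _), v.ord_unif_zpow]
    omega
  · simp only [res, Sys.map] at hm ⊢
    congr 1
    funext i
    rw [← v.red_mul]
    · congr 1
      rw [hm, neg_add, zpow_add₀ v.unif_ne_zero]
      ring
    · rw [v.ord_mul _ _ hc (v.unif_zpow_ne_zero _), v.ord_unif_zpow]
      omega
    · exact v.res_ord_nonneg S i

lemma red_mul_div {x y g h : K} (hg : g ≠ 0) (hh : h ≠ 0) (h1 : x ≠ 0 → v.ord g ≤ v.ord x)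
    (h2 : y ≠ 0 → v.ord h ≤ v.ord y) :
    v.red (x * y / (g * h)) = v.red (x / g) * v.red (y / h) := by
  rw [← v.red_mul]
  · congr 1; field_simp
  · by_cases hx : x = 0
    · rw [hx, zero_div, v.ord_zero]
    · rw [v.ord_div hx hg]; have := h1 hx; omega
  · by_cases hy : y = 0
    · rw [hy, zero_div, v.ord_zero]
    · rw [v.ord_div hy hh]; have := h2 hy; omega

/-- the restriction of a product -/
lemma res_mul {S T : Sys K} (hS : S.Nz) (hT : T.Nz) :
    v.res (S.mul T) = (v.res S).mul (v.res T) := by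
  have hm := v.mo_mul hS hT
  simp only [res, Sys.map, Sys.mul] at hm ⊢
  congr 1
  funext i
  rw [← v.red_mul (v.res_ord_nonneg S _) (v.res_ord_nonneg T _)]
  congr 1
  rw [hm, neg_add, zpow_add₀ v.unif_ne_zero]
  ring

end Res

/-! ### extensionality through the valuation ring -/

section Ext

variable {k K : Type} [Field k] [Field K] [Algebra k K]

lemma ord_pos_iff (v : DV k K) {x : K} (hx : x ≠ 0) : 0 < v.ord x ↔ x⁻¹ ∉ v.vs := by
  rw [mem_vs, v.ord_inv]; omega

/-- a discrete valuation is determined by its valuation ring, even if the base fields differ -/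
lemma ord_eq_of_vs_le {k' : Type} [Field k'] [Algebra k' K] (v : DV k K) (w : DV k' K)
    (h : ∀ x : K, 0 ≤ v.ord x → 0 ≤ w.ord x) : v.ord = w.ord := by
  -- w is nontrivial, so w.ord x = w.ord (unif_v) * v.ord x, and w.ord (unif v) = 1
  have h0 : ∀ x : K, v.ord x = 0 → w.ord x = 0 := by
    intro x hx
    have h1 := h x hx.ge
    have h2 := h x⁻¹ (by rw [v.ord_inv]; omega)
    rw [w.ord_inv] at h2
    omega
  have h1 : ∀ x : K, w.ord x = v.ord x * w.ord v.unif := by
    intro x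
    by_cases hx : x = 0
    · rw [hx, v.ord_zero, w.ord_zero, zero_mul]
    have h2 : w.ord (x * v.unif ^ (- v.ord x)) = 0 := by
      apply h0
      rw [v.ord_mul _ _ hx (v.unif_zpow_ne_zero _), v.ord_unif_zpow]; omega
    rw [w.ord_mul _ _ hx (v.unif_zpow_ne_zero _), w.ord_zpow] at h2
    linarith
  have h3 : 0 ≤ w.ord v.unif := h _ (by rw [v.ord_unif]; omega)
  obtain ⟨y, hy, hy1⟩ := w.ord_surj
  have h4 : v.ord y * w.ord v.unif = 1 := by rw [← h1, hy1]
  have h5 : w.ord v.unif = 1 := by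
    rcases Int.mul_eq_one_iff_eq_one_or_neg_one.mp h4 with ⟨_, h⟩ | ⟨_, h⟩
    · exact h
    · omega
  funext x
  rw [h1 x, h5, mul_one]

lemma ext_of_vs_le {v w : DV k K} (h : v.vs ≤ w.vs) : v = w :=
  DV.ext (ord_eq_of_vs_le v w fun _ hx => h hx)

lemma ext_of_vs {v w : DV k K} (h : v.vs = w.vs) : v = w := ext_of_vs_le h.le

/-- change of the base field of a discrete valuation -/
def rebase {k' : Type} [Field k'] [Algebra k' K] (v : DV k K)
    (h : ∀ c : k', v.ord (algebraMap k' K c) = 0) : DV k' K where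
  ord := v.ord
  ord_zero := v.ord_zero
  ord_mul := v.ord_mul
  ord_add := v.ord_add
  ord_base := h
  ord_surj := v.ord_surj

@[simp] lemma rebase_ord {k' : Type} [Field k'] [Algebra k' K] (v : DV k K)
    (h : ∀ c : k', v.ord (algebraMap k' K c) = 0) : (v.rebase h).ord = v.ord := rfl

end Ext

end DV

/-! ### extensions of valuations -/

section OverLemmas

variable {k K k' L : Type} [Field k] [Field K] [Algebra k K] [Field k'] [Field L] [Algebra k' L]
  [Algebra K L]

lemma Over.pos {v : DV k K} {w : DV k' L} {e : ℕ} (h : Over v w e) : 0 < e := h.1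

lemma Over.nonneg_iff {v : DV k K} {w : DV k' L} {e : ℕ} (h : Over v w e) (x : K) :
    0 ≤ w.ord (algebraMap K L x) ↔ 0 ≤ v.ord x := by
  rw [h.2 x]
  have := h.1
  constructor
  · intro h1; by_contra hc; push Not at hc; nlinarith [(by exact_mod_cast this : (0 : ℤ) < e)]
  · intro h1; positivity

lemma Over.pos_iff {v : DV k K} {w : DV k' L} {e : ℕ} (h : Over v w e) (x : K) :
    0 < w.ord (algebraMap K L x) ↔ 0 < v.ord x := by
  rw [h.2 x]
  have := h.1
  constructor
  · intro h1; by_contra hc; push Not at hc; nlinarith [(by exact_mod_cast this : (0 : ℤ) < e)]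
  · intro h1; positivity

lemma Over.zero_iff {v : DV k K} {w : DV k' L} {e : ℕ} (h : Over v w e) (x : K) :
    w.ord (algebraMap K L x) = 0 ↔ v.ord x = 0 := by
  have h1 := h.nonneg_iff x
  have h2 := h.pos_iff x
  omega

lemma Over.mo_up {v : DV k K} {w : DV k' L} {e : ℕ} (h : Over v w e) {S : Sys K} (hS : S.Nz) :
    w.mo (S.up L) = e * v.mo S := by
  apply w.mo_eq_of
  · intro i hi
    have h1 : S.s i ≠ 0 := fun h0 => hi (by simp [h0])
    show _ ≤ w.ord (algebraMap K L (S.s i))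
    rw [h.2]
    exact mul_le_mul_of_nonneg_left (v.mo_le S i h1) (by positivity)
  · obtain ⟨i, h1, h2⟩ := v.mo_exists S hS
    refine ⟨i, by simpa using h1, ?_⟩
    show w.ord (algebraMap K L (S.s i)) = _
    rw [h.2, h2]

/-- if `w` is trivial on `K` then the minimal order of a system of `K` is `0` -/
lemma DV.mo_up_trivial (w : DV k' L) (h : ∀ x : K, w.ord (algebraMap K L x) = 0) {S : Sys K} :
    w.mo (S.up L) = 0 := by
  by_cases hS : S.Nz
  · apply w.mo_eq_of
    · intro i _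
      exact (h _).ge
    · obtain ⟨i, hi⟩ := hS
      exact ⟨i, by simpa using hi, h _⟩
  · exact w.mo_of_not_nz (fun h' => hS ((Sys.up_nz_iff L).mp h'))

/-- the homomorphism of valuation rings -/
def Over.vsHom {v : DV k K} {w : DV k' L} {e : ℕ} (h : Over v w e) : v.vs →+* w.vs where
  toFun x := ⟨algebraMap K L x, (h.nonneg_iff _).mpr x.2⟩
  map_one' := by ext; simp
  map_mul' := by intro a b; ext; simp
  map_zero' := by ext; simp
  map_add' := by intro a b; ext; simp

lemma Over.vsHom_coe {v : DV k K} {w : DV k' L} {e : ℕ} (h : Over v w e) (x : v.vs) :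
    ((h.vsHom x : w.vs) : L) = algebraMap K L x := rfl

lemma Over.isLocalHom {v : DV k K} {w : DV k' L} {e : ℕ} (h : Over v w e) :
    IsLocalHom h.vsHom := by
  constructor
  intro a ha
  rw [DV.isUnit_vs_iff] at ha ⊢
  rw [Over.vsHom_coe] at ha
  refine ⟨fun h0 => ha.1 (by simp [h0]), (h.zero_iff _).mp ha.2⟩

/-- the homomorphism of residue fields -/
noncomputable def Over.resHom {v : DV k K} {w : DV k' L} {e : ℕ} (h : Over v w e) :
    v.Res →+* w.Res :=
  haveI := h.isLocalHom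
  IsLocalRing.ResidueField.map h.vsHom

lemma Over.resHom_compat {v : DV k K} {w : DV k' L} {e : ℕ} (h : Over v w e) :
    ResCompat v w h.resHom := by
  intro x hx
  have := h.isLocalHom
  rw [v.red_of_nonneg hx]
  have h1 : h.resHom (IsLocalRing.residue v.vs ⟨x, hx⟩) =
      IsLocalRing.residue w.vs (h.vsHom ⟨x, hx⟩) :=
    IsLocalRing.ResidueField.map_residue h.vsHom ⟨x, hx⟩
  rw [h1, w.red_of_nonneg ((h.nonneg_iff x).mpr hx)]
  rfl

theorem V2r : ∀ (k K k' L : Type) [Field k] [Field K] [Algebra k K] [Field k'] [Field L]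
    [Algebra k' L] [Algebra K L] (v : DV k K) (w : DV k' L) (e : ℕ), Over v w e →
    ∃ φ : v.Res →+* w.Res, ResCompat v w φ := by
  intro k K k' L _ _ _ _ _ _ _ v w e h
  exact ⟨h.resHom, h.resHom_compat⟩

lemma ResCompat.unique {v : DV k K} {w : DV k' L} {φ ψ : v.Res →+* w.Res} (h : ResCompat v w φ)
    (h' : ResCompat v w ψ) : φ = ψ := by
  ext1 y
  obtain ⟨x, hx, h0, -⟩ := v.exists_red y
  rw [← hx, h x h0, h' x h0]

/-- compatibility with the base fields -/
lemma ResCompat.map_base [Algebra k k'] [Algebra k L] [IsScalarTower k K L]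
    [IsScalarTower k k' L] {v : DV k K} {w : DV k' L} {φ : v.Res →+* w.Res}
    (h : ResCompat v w φ) (c : k) :
    φ (algebraMap k v.Res c) = algebraMap k' w.Res (algebraMap k k' c) := by
  rw [← v.red_algebraMap, h _ (by rw [v.ord_base]), ← w.red_algebraMap,
    ← IsScalarTower.algebraMap_apply, ← IsScalarTower.algebraMap_apply]

/-- restriction of a discrete valuation to a subfield on which it is not trivial -/
theorem V2 : ∀ (k K k' L : Type) [Field k] [Field K] [Algebra k K] [Field k'] [Field L]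
    [Algebra k' L] [Algebra K L] [Algebra k k'] [Algebra k L] [IsScalarTower k K L]
    [IsScalarTower k k' L] (w : DV k' L), (∃ x : K, w.ord (algebraMap K L x) ≠ 0) →
    ∃ (v : DV k K) (e : ℕ), Over v w e := by
  intro k K k' L _ _ _ _ _ _ _ _ _ _ _ w hw
  classical
  -- the subgroup of orders
  have hpos : ∃ n : ℕ, 0 < n ∧ ∃ x : K, x ≠ 0 ∧ w.ord (algebraMap K L x) = n := by
    obtain ⟨x, hx⟩ := hw
    have hx0 : x ≠ 0 := by
      rintro rfl
      rw [map_zero, w.ord_zero] at hx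
      exact hx rfl
    rcases lt_or_gt_of_ne hx with h | h
    · refine ⟨(w.ord (algebraMap K L x)).natAbs, by omega, x⁻¹, inv_ne_zero hx0, ?_⟩
      rw [map_inv₀, w.ord_inv]; omega
    · exact ⟨(w.ord (algebraMap K L x)).natAbs, by omega, x, hx0, by omega⟩
  obtain ⟨he0, t, ht0, ht⟩ := Nat.find_spec hpos
  have hmin : ∀ m : ℕ, 0 < m → (∃ x : K, x ≠ 0 ∧ w.ord (algebraMap K L x) = m) →
      Nat.find hpos ≤ m := fun m hm h => Nat.find_min' hpos ⟨hm, h⟩
  set e := Nat.find hpos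
  have hdvd : ∀ x : K, (e : ℤ) ∣ w.ord (algebraMap K L x) := by
    intro x
    by_cases hx : x = 0
    · rw [hx, map_zero, w.ord_zero]; exact dvd_zero _
    set a := w.ord (algebraMap K L x) with ha
    -- remainder
    have h1 : w.ord (algebraMap K L (x * t ^ (-(a / (e : ℤ))))) = a % e := by
      rw [map_mul, w.ord_mul _ _ (by simpa using hx) ((map_ne_zero _).mpr (zpow_ne_zero _ ht0)),
        map_zpow₀, w.ord_zpow, ht, ← ha, Int.emod_def]
      ring
    rcases eq_or_ne (a % e) 0 with h2 | h2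
    · exact Int.dvd_of_emod_eq_zero h2
    · exfalso
      have h3 : 0 ≤ a % e := Int.emod_nonneg _ (by omega)
      have h4 : a % e < e := Int.emod_lt_of_pos _ (by omega)
      have h5 := hmin (a % e).toNat (by omega)
        ⟨x * t ^ (-(a / (e : ℤ))), mul_ne_zero hx (zpow_ne_zero _ ht0), by rw [h1]; omega⟩
      omega
  have hez : (0 : ℤ) < e := by exact_mod_cast he0
  refine ⟨{ ord := fun x => w.ord (algebraMap K L x) / e
            ord_zero := by simp [w.ord_zero]
            ord_mul := ?_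
            ord_add := ?_
            ord_base := ?_
            ord_surj := ?_ }, e, he0, ?_⟩
  · intro x y hx hy
    rw [map_mul, w.ord_mul _ _ (by simpa using hx) (by simpa using hy)]
    exact Int.add_ediv_of_dvd_left (hdvd x)
  · intro x y hx hy hxy
    have h := w.ord_add (algebraMap K L x) (algebraMap K L y) (by simpa using hx)
      (by simpa using hy) (by rw [← map_add]; exact (map_ne_zero _).mpr hxy)
    rw [← map_add] at h
    rcases min_le_iff.mp h with h | h
    · exact min_le_iff.mpr (Or.inl (Int.ediv_le_ediv hez h))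
    · exact min_le_iff.mpr (Or.inr (Int.ediv_le_ediv hez h))
  · intro c
    rw [← IsScalarTower.algebraMap_apply, IsScalarTower.algebraMap_apply k k' L, w.ord_base]
    simp
  · exact ⟨t, ht0, by rw [ht]; exact Int.ediv_self hez.ne'⟩
  · intro x
    show w.ord (algebraMap K L x) = e * (w.ord (algebraMap K L x) / e)
    exact (Int.mul_ediv_cancel' (hdvd x)).symm

end OverLemmas

/-! ### polynomials -/

section Poly

variable {k K : Type} [Field k] [Field K] [Algebra k K] (v : DV k K)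

/-- evaluation of a polynomial with coefficients in the valuation ring -/
lemma DV.ord_eval₂_nonneg {k' L : Type} [Field k'] [Field L] [Algebra k' L] [Algebra K L]
    {w : DV k' L} {e : ℕ} (h : Over v w e) {σ : Type*} (x : σ → L) (hx : ∀ i, 0 ≤ w.ord (x i))
    (p : MvPolynomial σ v.vs) :
    0 ≤ w.ord (MvPolynomial.eval₂ ((algebraMap K L).comp v.vs.subtype) x p) := by
  classical
  rw [MvPolynomial.eval₂_eq]
  apply w.ord_sum_nonneg
  intro d _
  apply w.ord_mul_nonneg
  · exact (h.nonneg_iff _).mpr (p.coeff d).2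
  · apply w.ord_prod_nonneg
    intro i _
    exact w.ord_pow_nonneg (hx i) _

/-- reduction commutes with the evaluation of polynomials, in an extension -/
lemma DV.red_eval₂ {k' L : Type} [Field k'] [Field L] [Algebra k' L] [Algebra K L]
    {w : DV k' L} {e : ℕ} (h : Over v w e) {φ : v.Res →+* w.Res} (hφ : ResCompat v w φ)
    {σ : Type*} (x : σ → L) (hx : ∀ i, 0 ≤ w.ord (x i)) (p : MvPolynomial σ v.vs) :
    w.red (MvPolynomial.eval₂ ((algebraMap K L).comp v.vs.subtype) x p) =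
      MvPolynomial.eval₂ (φ.comp (IsLocalRing.residue v.vs)) (fun i => w.red (x i)) p := by
  classical
  rw [MvPolynomial.eval₂_eq, MvPolynomial.eval₂_eq, w.red_sum]
  · apply Finset.sum_congr rfl
    intro d _
    have h0 : 0 ≤ w.ord (((algebraMap K L).comp v.vs.subtype) (p.coeff d)) :=
      (h.nonneg_iff _).mpr (p.coeff d).2
    rw [w.red_mul h0 (w.ord_prod_nonneg _ _ fun i _ => w.ord_pow_nonneg (hx i) _),
      w.red_prod _ _ (fun i _ => w.ord_pow_nonneg (hx i) _)]
    congr 1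
    · show w.red (algebraMap K L ((p.coeff d : v.vs) : K)) =
        φ (IsLocalRing.residue v.vs (p.coeff d))
      rw [← hφ _ (p.coeff d).2, v.red_coe]
    · apply Finset.prod_congr rfl
      intro i _
      exact w.red_pow (hx i) _
  · intro d _
    exact w.ord_mul_nonneg ((h.nonneg_iff _).mpr (p.coeff d).2)
      (w.ord_prod_nonneg _ _ fun i _ => w.ord_pow_nonneg (hx i) _)

/-- reduction commutes with the evaluation of polynomials -/
lemma DV.red_eval₂_self {σ : Type*} (x : σ → K) (hx : ∀ i, 0 ≤ v.ord (x i))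
    (p : MvPolynomial σ v.vs) :
    0 ≤ v.ord (MvPolynomial.eval₂ v.vs.subtype x p) ∧
    v.red (MvPolynomial.eval₂ v.vs.subtype x p) =
      MvPolynomial.eval₂ (IsLocalRing.residue v.vs) (fun i => v.red (x i)) p := by
  have h : Over v v 1 := ⟨one_pos, fun x => by simp⟩
  have hφ : ResCompat v v (RingHom.id v.Res) := fun x _ => rfl
  constructor
  · exact DV.ord_eval₂_nonneg v h x hx p
  · exact DV.red_eval₂ v h hφ x hx p

/-- a polynomial over `k` -/
lemma DV.red_aeval {σ : Type*} (x : σ → K) (hx : ∀ i, 0 ≤ v.ord (x i))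
    (p : MvPolynomial σ k) :
    0 ≤ v.ord (MvPolynomial.aeval x p) ∧
    v.red (MvPolynomial.aeval x p) = MvPolynomial.aeval (fun i => v.red (x i)) p := by
  have h := DV.red_eval₂_self v x hx (MvPolynomial.map (algebraMap k v.vs) p)
  rw [MvPolynomial.eval₂_map, MvPolynomial.eval₂_map] at h
  exact h

/-- lifting a polynomial with coefficients of nonnegative order -/
lemma DV.exists_lift_poly {σ : Type*} (p : MvPolynomial σ K)
    (hp : ∀ d, 0 ≤ v.ord (p.coeff d)) :
    ∃ q : MvPolynomial σ v.vs, MvPolynomial.map v.vs.subtype q = p ∧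
      ∀ d, ((q.coeff d : v.vs) : K) = p.coeff d := by
  classical
  have h1 : p ∈ Set.range (MvPolynomial.map (σ := σ) v.vs.subtype) := by
    rw [MvPolynomial.mem_range_map_iff_coeffs_subset]
    intro c hc
    rw [SetLike.mem_coe, MvPolynomial.mem_coeffs_iff] at hc
    obtain ⟨d, -, rfl⟩ := hc
    exact ⟨⟨_, hp d⟩, rfl⟩
  obtain ⟨q, hq⟩ := h1
  refine ⟨q, hq, fun d => ?_⟩
  rw [← hq, MvPolynomial.coeff_map]
  rfl

/-- lifting a polynomial of the residue field: coefficients are zero or of order zero -/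
lemma DV.exists_lift_res {σ : Type*} (p : MvPolynomial σ v.Res) :
    ∃ q : MvPolynomial σ v.vs, MvPolynomial.map (IsLocalRing.residue v.vs) q = p :=
  MvPolynomial.map_surjective _ IsLocalRing.residue_surjective p

/-- a nonzero polynomial can be scaled to have coefficients of nonnegative order, with a nonzero
reduction -/
lemma DV.exists_primitive {σ : Type*} (p : MvPolynomial σ K) (hp : p ≠ 0) :
    ∃ (c : K) (q : MvPolynomial σ v.vs), c ≠ 0 ∧
      p = MvPolynomial.C c * MvPolynomial.map v.vs.subtype q ∧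
      MvPolynomial.map (IsLocalRing.residue v.vs) q ≠ 0 ∧
      (∀ d, p.coeff d ≠ 0 → v.ord c ≤ v.ord (p.coeff d)) ∧
      ∃ d, p.coeff d = c := by
  classical
  obtain ⟨d, hd, hmin⟩ := Finset.exists_min_image p.support (fun d => v.ord (p.coeff d))
    (MvPolynomial.support_nonempty.mpr hp)
  have hc : p.coeff d ≠ 0 := MvPolynomial.mem_support_iff.mp hd
  have hmin' : ∀ d', p.coeff d' ≠ 0 → v.ord (p.coeff d) ≤ v.ord (p.coeff d') :=
    fun d' hd' => hmin d' (MvPolynomial.mem_support_iff.mpr hd')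
  obtain ⟨q, hq, hq'⟩ := DV.exists_lift_poly v (MvPolynomial.C (p.coeff d)⁻¹ * p) (by
    intro d'
    rw [MvPolynomial.coeff_C_mul]
    by_cases h : p.coeff d' = 0
    · rw [h, mul_zero, v.ord_zero]
    · rw [v.ord_mul _ _ (inv_ne_zero hc) h, v.ord_inv]
      have := hmin' d' h
      omega)
  refine ⟨p.coeff d, q, hc, ?_, ?_, hmin', d, rfl⟩
  · rw [hq, ← mul_assoc, ← MvPolynomial.C_mul, mul_inv_cancel₀ hc, MvPolynomial.C_1, one_mul]
  · intro h0
    have h1 := congrArg (MvPolynomial.coeff d) h0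
    rw [MvPolynomial.coeff_map, MvPolynomial.coeff_zero, ← v.red_coe, hq',
      MvPolynomial.coeff_C_mul, inv_mul_cancel₀ hc, v.red_one] at h1
    exact one_ne_zero h1

end Poly

/-! ### formal combinations -/

section Comb

variable {k K : Type} [Field k] [Field K] [Algebra k K] (v : DV k K)

@[simp] lemma DV.val_nil : v.val [] = 0 := rfl

@[simp] lemma DV.val_cons (p : ℤ × Sys K) (φ : List (ℤ × Sys K)) :
    v.val (p :: φ) = p.1 * v.mo p.2 + v.val φ := by simp [DV.val]

lemma DV.val_append (φ ψ : List (ℤ × Sys K)) : v.val (φ ++ ψ) = v.val φ + v.val ψ := by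
  simp [DV.val]

lemma mem_Hs {φ : List (ℤ × Sys K)} {g : K} :
    g ∈ Hs k φ ↔ ∀ v : DV k K, g = 0 ∨ v.val φ ≤ v.ord g := Iff.rfl

end Comb

end SC
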