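import Pool.Agent.H64.SC.Api
import Pool.Agent.H93.SC.Targets2

/-!
Formal combinations of systems in an extension; the targets T_V2, T_V2r (MP_f2954d_ag).
-/

namespace SC

theorem t_V2 : T_V2 := V2

theorem t_V2r : T_V2r := V2r

section

variable {k K k' L : Type} [Field k] [Field K] [Algebra k K] [Field k'] [Field L] [Algebra k' L]
  [Algebra K L]

@[simp] lemma upl_nil : upl L ([] : List (ℤ × Sys K)) = [] := rfl

@[simp] lemma upl_cons (p : ℤ × Sys K) (φ : List (ℤ × Sys K)) :
    upl L (p :: φ) = (p.1, p.2.up L) :: upl L φ := rfl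

lemma upl_append (φ ψ : List (ℤ × Sys K)) : upl L (φ ++ ψ) = upl L φ ++ upl L ψ := by
  simp [upl]

lemma Nzl.cons_iff {p : ℤ × Sys K} {φ : List (ℤ × Sys K)} :
    Nzl (p :: φ) ↔ p.2.Nz ∧ Nzl φ := by
  simp [Nzl]

lemma Nzl.nil : Nzl ([] : List (ℤ × Sys K)) := by simp [Nzl]

lemma Nzl.append_iff {φ ψ : List (ℤ × Sys K)} : Nzl (φ ++ ψ) ↔ Nzl φ ∧ Nzl ψ := by
  simp only [Nzl, List.mem_append]
  constructor
  · intro h
    exact ⟨fun p hp => h p (Or.inl hp), fun p hp => h p (Or.inr hp)⟩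
  · rintro ⟨h1, h2⟩ p (hp | hp)
    · exact h1 p hp
    · exact h2 p hp

lemma Nzl.upl {φ : List (ℤ × Sys K)} (h : Nzl φ) : Nzl (SC.upl L φ) := by
  intro p hp
  simp only [SC.upl, List.mem_map] at hp
  obtain ⟨q, hq, rfl⟩ := hp
  exact Sys.up_nz L (h q hq)

/-- the value of a formal combination in an extension -/
lemma Over.val_upl {v : DV k K} {w : DV k' L} {e : ℕ} (h : Over v w e) {φ : List (ℤ × Sys K)}
    (hφ : Nzl φ) : w.val (upl L φ) = e * v.val φ := by
  induction φ with
  | nil => simp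
  | cons p φ ih =>
    rw [Nzl.cons_iff] at hφ
    rw [upl_cons, DV.val_cons, DV.val_cons, ih hφ.2, h.mo_up hφ.1]
    ring

/-- the value at a valuation which is trivial on `K` -/
lemma DV.val_upl_trivial (w : DV k' L) (h : ∀ x : K, w.ord (algebraMap K L x) = 0)
    (φ : List (ℤ × Sys K)) : w.val (upl L φ) = 0 := by
  induction φ with
  | nil => simp
  | cons p φ ih => rw [upl_cons, DV.val_cons, ih, w.mo_up_trivial h]; simp

@[simp] lemma degs_nil {J : Type} (S : J → Sys K) : degs k S [] = 0 := rfl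

@[simp] lemma degs_cons {J : Type} (S : J → Sys K) (p : ℤ × Sys K) (φ : List (ℤ × Sys K)) :
    degs k S (p :: φ) = p.1 * (Idx (Sum.elim (fun _ : Unit => p.2) S) k : ℤ) + degs k S φ := by
  simp [degs]

/-- restriction to a generic section maps `H` to `H` (more generally to any extension) -/
theorem mem_Hs_upl [Algebra k k'] [Algebra k L] [IsScalarTower k K L] [IsScalarTower k k' L]
    {φ : List (ℤ × Sys K)} (hφ : Nzl φ) {g : K} (hg : g ∈ Hs k φ) :
    algebraMap K L g ∈ Hs k' (upl L φ) := by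
  intro w
  by_cases hg0 : g = 0
  · left; simp [hg0]
  right
  by_cases hw : ∃ x : K, w.ord (algebraMap K L x) ≠ 0
  · obtain ⟨v, e, he⟩ := V2 k K k' L w hw
    rw [he.val_upl hφ, he.2]
    rcases hg v with h | h
    · exact absurd h hg0
    · exact mul_le_mul_of_nonneg_left h (by positivity)
  · push Not at hw
    rw [w.val_upl_trivial hw, hw]

theorem t_D3a : T_D3a := by
  intro k K L J _ _ _ _ _ _ _ S U φ hφ g hg
  exact mem_Hs_upl hφ hg

end

end SC
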